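import Pool.Agent.Y254.HK.Stm
import Pool.Agent.W305.HM.LOC1

/-!
# Localization to intervals of heights (helper941)
-/

set_option autoImplicit false

open Finset
open scoped Classical

namespace Pool.Agent.Y941.HK
open Pool.Agent.W904.AK Pool.Agent.W46.HD Pool.Agent.W46.HM Pool.Agent.Y244.HM
  Pool.Agent.W305.HM

section transfer

variable {Ω Ω' : Type} [Fintype Ω] [Fintype Ω'] {d n L a : ℕ} {A D : Ω → Fin d → ℝ}
  {ι : Ω' → Ω} {φ : Ω × Fin n → Ω' × Fin L} {q : Ω × Fin n → ℝ}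

theorem transferM (hq : IsLaw q) (hι : Function.Injective ι)
    (hφ : ∀ z, q z ≠ 0 → ι (φ z).1 = z.1 ∧ (z.2 : ℕ) = a * L + (φ z).2) (b G C : ℝ)
    (O : OrM L (fun w i => A (ι w) i + ((a * L : ℕ) : ℝ) * D (ι w) i) (fun w => D (ι w)) b G C) :
    H q Prod.fst ≤ b * (H q (fun z => (z.2, cell A D z.2 z.1)) - H q Prod.snd) +
      G * (Real.log L - (H q id - H q Prod.fst)) + (H q Prod.snd - (H q id - H q Prod.fst)) +
      C := by
  have h := O (im q φ) (hq.im φ)
  have e1 : H (im q φ) Prod.fst = H q Prod.fst := by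
    rw [H_im]
    exact H_congr hq (fun z z' hz hz' h => (fst_eq hι hφ hz hz').1 h)
      (fun z z' hz hz' h => (fst_eq hι hφ hz hz').2 h)
  have e2 : H (im q φ) Prod.snd = H q Prod.snd := by
    rw [H_im]
    exact H_congr hq (fun z z' hz hz' h => (snd_eq hφ hz hz').1 h)
      (fun z z' hz hz' h => (snd_eq hφ hz hz').2 h)
  have e3 : H (im q φ) id = H q id := by
    rw [H_im]
    refine H_congr hq (fun z z' hz hz' h => ?_) (fun z z' hz hz' h => ?_)
    · simp only [id] at h ⊢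
      exact Prod.ext ((fst_eq hι hφ hz hz').1 (congrArg Prod.fst h))
        ((snd_eq hφ hz hz').1 (congrArg Prod.snd h))
    · simp only [id] at h ⊢
      rw [h]
  have e4 : H (im q φ) (fun z => (z.2, cell (fun w i => A (ι w) i + ((a * L : ℕ) : ℝ) * D (ι w) i)
      (fun w => D (ι w)) z.2 z.1)) = H q (fun z => (z.2, cell A D z.2 z.1)) := by
    rw [H_im]
    refine H_congr hq (fun z z' hz hz' h => ?_) (fun z z' hz hz' h => ?_)
    · rw [cell_eq hφ hz, cell_eq hφ hz'] at h
      have h1 := Prod.ext_iff.1 h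
      exact Prod.ext ((snd_eq hφ hz hz').1 h1.1) h1.2
    · rw [cell_eq hφ hz, cell_eq hφ hz']
      have h1 := Prod.ext_iff.1 h
      exact Prod.ext ((snd_eq hφ hz hz').2 h1.1) h1.2
  unfold aa hh lam mi at h
  rw [e1, e2, e3, e4] at h
  exact h

end transfer

/-- One label and one colour. -/
theorem one_label {d k : ℕ} {b M : ℝ}
    (O : ∀ (Ω : Type) [Fintype Ω] (A D : Ω → Fin d → ℝ), IsFam (2 ^ k) D →
      OrM (2 ^ k) A D b d M)
    {n : ℕ} {Ω : Type} [Fintype Ω] (A D : Ω → Fin d → ℝ) (hF : IsFam n D) (a : ℕ)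
    (ρ : Fin d → ℤ) (q : Ω × Fin n → ℝ) (hq : IsLaw q)
    (hsup : ∀ z, q z ≠ 0 → (z.2 : ℕ) / 2 ^ k = a ∧ col n D k z.1 = ρ) :
    H q Prod.fst ≤ b * (H q (fun z => (z.2, cell A D z.2 z.1)) - H q Prod.snd) +
      d * (Real.log ((2 : ℝ) ^ k) - (H q id - H q Prod.fst)) +
      (H q Prod.snd - (H q id - H q Prod.fst)) + M := by
  have hLpos : 0 < 2 ^ k := by positivity
  obtain ⟨z0, hz0⟩ : ∃ z, q z ≠ 0 := by
    by_contra h
    push Not at h
    have := hq.total
    simp [h] at this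
  let φ : Ω × Fin n → {ω : Ω // col n D k ω = ρ} × Fin (2 ^ k) := fun z =>
    (if h : col n D k z.1 = ρ then ⟨z.1, h⟩ else ⟨z0.1, (hsup z0 hz0).2⟩,
      ⟨z.2 % 2 ^ k, Nat.mod_lt _ hLpos⟩)
  have hφ : ∀ z, q z ≠ 0 → ((φ z).1 : Ω) = z.1 ∧ (z.2 : ℕ) = a * 2 ^ k + (φ z).2 := by
    intro z hz
    obtain ⟨h1, h2⟩ := hsup z hz
    constructor
    · simp only [φ]
      rw [dif_pos h2]
    · simp only [φ]
      rw [← h1]
      exact (Nat.div_add_mod' _ _).symm
  have hfam : IsFam (2 ^ k) (fun w : {ω : Ω // col n D k ω = ρ} => D w.1) := by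
    refine ⟨hLpos, fun w i => hF.lo w.1 i, fun w i => hF.hi w.1 i, fun w w' h => ?_⟩
    apply Subtype.ext
    apply hF.inj
    intro i
    apply floor_close n (2 ^ k) hLpos _ _ (h i)
    have h1 := congrFun (w.2.trans w'.2.symm) i
    exact h1
  have hO := O {ω : Ω // col n D k ω = ρ}
    (fun w i => A w.1 i + ((a * 2 ^ k : ℕ) : ℝ) * D w.1 i) (fun w => D w.1) hfam
  have := transferM (A := A) (D := D) hq Subtype.val_injective hφ b d M hO
  rw [Nat.cast_pow, Nat.cast_ofNat] at this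
  exact this

/-- The label of (line, height). -/
noncomputable def QL {Ω : Type} {d n : ℕ} (D : Ω → Fin d → ℝ) (k : ℕ) (z : Ω × Fin n) :
    ℕ × (Fin d → ℤ) := ((z.2 : ℕ) / 2 ^ k, col n D k z.1)

/-- All labels. -/
theorem all_labels {d k : ℕ} {b M : ℝ}
    (O : ∀ (Ω : Type) [Fintype Ω] (A D : Ω → Fin d → ℝ), IsFam (2 ^ k) D →
      OrM (2 ^ k) A D b d M)
    {n : ℕ} {Ω : Type} [Fintype Ω] (A D : Ω → Fin d → ℝ) (hF : IsFam n D)
    (p : Ω × Fin n → ℝ) (hp : IsLaw p) :
    H p (fun z => (QL D k z, z.1)) - H p (QL D k) ≤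
      b * (H p (fun z => (QL D k z, z.2, cell A D z.2 z.1)) - H p (fun z => (QL D k z, z.2))) +
      d * (Real.log ((2 : ℝ) ^ k) -
        (H p (fun z => (QL D k z, z.1, z.2)) - H p (fun z => (QL D k z, z.1)))) +
      ((H p (fun z => (QL D k z, z.2)) - H p (QL D k)) -
        (H p (fun z => (QL D k z, z.1, z.2)) - H p (fun z => (QL D k z, z.1)))) + M := by
  have e0 := chain hp (QL (n := n) D k) (fun z => z.1)
  have e1 := chain hp (QL D k) (fun z => (z.2, cell A D z.2 z.1))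
  have e2 := chain hp (QL (n := n) D k) (fun z => z.2)
  have e3 := chain hp (QL (n := n) D k) (fun z => (z.1, z.2))
  have key : ∀ x, p x * H (cd p (QL D k) (QL D k x)) (fun z => z.1) ≤
      b * (p x * H (cd p (QL D k) (QL D k x)) (fun z => (z.2, cell A D z.2 z.1)) -
        p x * H (cd p (QL D k) (QL D k x)) (fun z => z.2)) +
      (d * (p x * Real.log ((2 : ℝ) ^ k) -
        (p x * H (cd p (QL D k) (QL D k x)) (fun z => (z.1, z.2)) -
        p x * H (cd p (QL D k) (QL D k x)) (fun z => z.1))) +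
      (p x * H (cd p (QL D k) (QL D k x)) (fun z => z.2) -
        (p x * H (cd p (QL D k) (QL D k x)) (fun z => (z.1, z.2)) -
        p x * H (cd p (QL D k) (QL D k x)) (fun z => z.1)) + p x * M)) := by
    intro x
    by_cases hx : p x = 0
    · simp [hx]
    · have hP : 0 < im p (QL D k) (QL D k x) := im_pos hp (QL D k) hx
      have hlaw : IsLaw (cd p (QL D k) (QL D k x)) := cd_law hp (QL D k) hP.ne'
      have hcd : ∀ z, cd p (QL D k) (QL D k x) z ≠ 0 → QL D k z = QL D k x := by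
        intro z hz
        by_contra hne
        exact hz (if_neg hne)
      have hq1 : ∀ z, cd p (QL D k) (QL D k x) z ≠ 0 →
          (z.2 : ℕ) / 2 ^ k = (x.2 : ℕ) / 2 ^ k ∧ col n D k z.1 = col n D k x.1 := by
        intro z hz
        have h := hcd z hz
        exact ⟨congrArg Prod.fst h, congrArg Prod.snd h⟩
      have h2 := one_label O A D hF ((x.2 : ℕ) / 2 ^ k) (col n D k x.1)
        (cd p (QL D k) (QL D k x)) hlaw hq1
      have h3 := mul_le_mul_of_nonneg_left h2 (hp.nonneg x)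
      have e6 : H (cd p (QL D k) (QL D k x)) (fun z => (z.1, z.2)) =
          H (cd p (QL D k) (QL D k x)) id := rfl
      have e7 : H (cd p (QL D k) (QL D k x)) (fun z => z.1) =
          H (cd p (QL D k) (QL D k x)) Prod.fst := rfl
      have e8 : H (cd p (QL D k) (QL D k x)) (fun z => z.2) =
          H (cd p (QL D k) (QL D k x)) Prod.snd := rfl
      rw [e6, e7, e8]
      refine h3.trans (le_of_eq ?_)
      ring
  have hsum := Finset.sum_le_sum fun x (_ : x ∈ (Finset.univ : Finset (Ω × Fin n))) => key x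
  rw [Finset.sum_add_distrib, Finset.sum_add_distrib, Finset.sum_add_distrib,
    ← Finset.mul_sum, ← Finset.mul_sum,
    Finset.sum_sub_distrib, Finset.sum_sub_distrib, Finset.sum_sub_distrib,
    Finset.sum_sub_distrib, Finset.sum_sub_distrib, ← Finset.sum_mul,
    ← Finset.sum_mul, hp.total, ← e0, ← e1, ← e2, ← e3] at hsum
  refine hsum.trans (le_of_eq ?_)
  ring

/-- The entropy of the colour. -/
theorem H_col {d k n : ℕ} (hk : 2 ^ k ≤ n) {Ω : Type} [Fintype Ω] (D : Ω → Fin d → ℝ)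
    (p : Ω × Fin n → ℝ) (hp : IsLaw p) :
    H p (fun z => col n D k z.1) ≤ d * (Real.log n - Real.log ((2 : ℝ) ^ k) + 2) := by
  have hL : 0 < 2 ^ k := by positivity
  have hLr : (0 : ℝ) < (2 : ℝ) ^ k := by positivity
  have hn : 0 < n := lt_of_lt_of_le hL hk
  have hnr : (0 : ℝ) < n := by exact_mod_cast hn
  have h1 := H_le_log_card hp (fun z => col n D k z.1)
    (Fintype.piFinset fun _ : Fin d => Finset.Ico (0 : ℤ) (((n / 2 ^ k : ℕ) : ℤ) + 3)) (by
      intro z _
      rw [Fintype.mem_piFinset]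
      intro i
      rw [Finset.mem_Ico]
      unfold col
      have hpos : (0 : ℤ) < ((n / 2 ^ k : ℕ) : ℤ) + 3 :=
        add_pos_of_nonneg_of_pos (Int.natCast_nonneg _) (by norm_num)
      exact ⟨Int.emod_nonneg _ hpos.ne', Int.emod_lt_of_pos _ hpos⟩)
  refine h1.trans ?_
  rw [Fintype.card_piFinset, Finset.prod_const, Finset.card_univ, Fintype.card_fin,
    Int.card_Ico]
  have h2 : (((n / 2 ^ k : ℕ) : ℤ) + 3 - 0).toNat = n / 2 ^ k + 3 := by
    generalize n / 2 ^ k = m
    omega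
  rw [h2]
  push_cast
  rw [Real.log_pow]
  refine mul_le_mul_of_nonneg_left ?_ (Nat.cast_nonneg _)
  have h3 : ((n / 2 ^ k : ℕ) : ℝ) ≤ (n : ℝ) / 2 ^ k := by
    have := @Nat.cast_div_le ℝ _ _ _ n (2 ^ k)
    simpa using this
  have h4 : (1 : ℝ) ≤ (n : ℝ) / 2 ^ k := by
    rw [le_div_iff₀ hLr, one_mul]
    exact_mod_cast hk
  have h5 : Real.log ((n : ℝ) / 2 ^ k * 4) = Real.log n - Real.log ((2 : ℝ) ^ k) + Real.log 4 := by
    rw [Real.log_mul (by positivity) (by norm_num), Real.log_div hnr.ne' hLr.ne']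
  have h6 : Real.log 4 ≤ 2 := by
    have : Real.log 4 = 2 * Real.log 2 := by
      rw [show (4 : ℝ) = 2 ^ 2 by norm_num, Real.log_pow]
      norm_num
    have h7 := Real.log_two_lt_d9
    rw [this]
    linarith
  have h8 : Real.log (((n / 2 ^ k : ℕ) : ℝ) + 3) ≤ Real.log ((n : ℝ) / 2 ^ k * 4) := by
    apply Real.log_le_log (by positivity)
    linarith
  linarith

theorem t_lh : Pool.Agent.Y254HK.S_LH := by
  intro d
  refine ⟨2 * d, by positivity, ?_⟩
  intro b M k hb O n Ω _ A D hF hk p hp hsup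
  obtain ⟨a, ha⟩ := hsup
  have h := all_labels O A D hF p hp
  have hcol := H_col hk D p hp
  have a1 : H p (fun z => (QL D k z, z.1, z.2)) = H p id := by
    refine H_congr hp ?_ ?_
    · intro x y _ _ h
      exact congrArg Prod.snd h
    · intro x y _ _ h
      have h' : x = y := h
      rw [h']
  have a2 : H p (fun z => (QL D k z, z.1)) = H p Prod.fst := by
    refine H_congr hp ?_ ?_
    · intro x y _ _ h
      exact congrArg Prod.snd h
    · intro x y hx hy h
      have h' : x.1 = y.1 := h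
      have h1 : (x.2 : ℕ) / 2 ^ k = (y.2 : ℕ) / 2 ^ k := by rw [ha x hx, ha y hy, h']
      show ((((x.2 : ℕ) / 2 ^ k, col n D k x.1), x.1) : (ℕ × (Fin d → ℤ)) × Ω) =
        (((y.2 : ℕ) / 2 ^ k, col n D k y.1), y.1)
      rw [h1, h']
  have a3 : H p (fun z => (QL D k z, z.2, cell A D z.2 z.1)) + H p Prod.snd ≤
      H p (fun z => (QL D k z, z.2)) + H p (fun z => (z.2, cell A D z.2 z.1)) := by
    refine submod' hp (h := Prod.snd) ?_ ?_ ?_
    · intro x y _ _ h
      exact congrArg (fun u => u.2) h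
    · intro x y _ _ h
      exact congrArg (fun u => u.1) h
    · intro x y _ _ h
      have e1 : QL D k x = QL D k y := congrArg (fun u => u.1.1) h
      have e2 : x.2 = y.2 := congrArg (fun u => u.1.2) h
      have e3 : cell A D x.2 x.1 = cell A D y.2 y.1 := congrArg (fun u => u.2.2) h
      exact Prod.ext e1 (Prod.ext e2 e3)
  have a4 : H p (fun z => (QL D k z, z.2)) ≤ H p (fun z => col n D k z.1) + H p Prod.snd := by
    refine subadd hp ?_
    intro x y _ _ h
    have e1 : col n D k x.1 = col n D k y.1 := congrArg (fun u => u.1) h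
    have e2 : x.2 = y.2 := congrArg (fun u => u.2) h
    show ((((x.2 : ℕ) / 2 ^ k, col n D k x.1), x.2) : (ℕ × (Fin d → ℤ)) × Fin n) =
        (((y.2 : ℕ) / 2 ^ k, col n D k y.1), y.2)
    rw [e1, e2]
  have a5 : b * (H p (fun z => (QL D k z, z.2, cell A D z.2 z.1)) -
      H p (fun z => (QL D k z, z.2))) ≤ b * hh A D p := by
    refine mul_le_mul_of_nonneg_left ?_ hb
    unfold hh
    linarith
  rw [a1, a2] at h
  unfold lam aa mi
  linarith

end Pool.Agent.Y941.HK
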